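import Pool.Agent.Lib_MP_2fbd40_lc.Defs

/-!
# n-ary contact is first-order definable over normal spaces

Over the class of all normal topological spaces (no separation axiom besides normality is needed)
the `n`-ary contact relation is defined by one first-order formula of the language of contact
algebras, for every `n`: the formula says that there are no `y₁, …, yₙ` with
`y₁ + ⋯ + yₙ = 1` and `yᵢ` not in contact with `xᵢ` for each `i`.
-/

universe u

open FirstOrder Pool.Agent.Lib_MP_2fbd40_lc

namespace Pool.Agent.Results.MP_2fbd40_lc.NormalDefinable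

/-- The term `y₁ + ⋯ + yₙ`. -/
def sumTerm {n : ℕ} (l : List (Fin n)) : caLang.Term (Fin n ⊕ Fin n) :=
  l.foldr (fun i t => FirstOrder.Language.Term.func (L := caLang) CAFunc.add
    ![FirstOrder.Language.Term.var (Sum.inr i), t])
    (FirstOrder.Language.Term.func (L := caLang) CAFunc.zero ![])

/-- The formula: for all `y₁, …, yₙ`, not (`y₁ + ⋯ + yₙ = 1` and no `yᵢ` is in contact
with `xᵢ`). -/
noncomputable def contactFormula (n : ℕ) : caLang.Formula (Fin n) :=
  (FirstOrder.Language.BoundedFormula.exs
    ((FirstOrder.Language.BoundedFormula.equal (sumTerm (List.finRange n))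
      (FirstOrder.Language.Term.func (L := caLang) CAFunc.one ![])) ⊓
    FirstOrder.Language.BoundedFormula.iInf (fun i : Fin n =>
      (FirstOrder.Language.BoundedFormula.rel (L := caLang) CARel.contact
        ![FirstOrder.Language.Term.var (Sum.inr i),
          FirstOrder.Language.Term.var (Sum.inl i)]).not))).not

theorem realize_sumTerm {X : Type u} [TopologicalSpace X] {n : ℕ} (a b : Fin n → RC X)
    (l : List (Fin n)) :
    ((sumTerm l).realize (Sum.elim a b)).1 = ⋃ i ∈ l, (b i).1 := by
  induction l with
  | nil => simp; rfl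
  | cons i l ih =>
    have : ((sumTerm (i :: l)).realize (Sum.elim a b)).1 =
      (b i).1 ∪ ((sumTerm l).realize (Sum.elim a b)).1 := rfl
    rw [this, ih]
    simp

theorem realize_contactFormula {X : Type u} [TopologicalSpace X] {n : ℕ} (a : Fin n → RC X) :
    (contactFormula n).Realize a ↔
      ¬ ∃ b : Fin n → RC X, (⋃ i, (b i).1) = Set.univ ∧ ∀ i, ¬ ((b i).1 ∩ (a i).1).Nonempty := by
  unfold contactFormula
  rw [FirstOrder.Language.Formula.realize_not]
  refine not_congr ?_
  rw [FirstOrder.Language.BoundedFormula.realize_exs]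
  refine exists_congr fun b => ?_
  rw [FirstOrder.Language.BoundedFormula.realize_inf,
    FirstOrder.Language.BoundedFormula.realize_iInf]
  refine and_congr ?_ (forall_congr' fun i => ?_)
  · have h := realize_sumTerm a b (List.finRange n)
    have h2 : (⋃ i ∈ List.finRange n, (b i).1) = ⋃ i, (b i).1 := by simp
    rw [h2] at h
    rw [← h]
    exact Subtype.ext_iff
  · exact Iff.rfl

/-- **Theorem.** For every `n` there is a first-order formula of the language of contact algebras
which defines the `n`-ary contact relation in `RC(X)` for every normal topological space `X`. -/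
theorem result (n : ℕ) :
    ∃ φ : caLang.Formula (Fin n),
      ∀ (X : Type u) [TopologicalSpace X], NormalSpace X →
        ∀ a : Fin n → RC X, (φ.Realize a ↔ (⋂ i, (a i).1).Nonempty) := by
  refine ⟨contactFormula n, fun X _ _ a => ?_⟩
  rw [realize_contactFormula]
  constructor
  · intro h
    by_contra hne
    apply h
    rw [Set.not_nonempty_iff_eq_empty] at hne
    have hcl : ∀ i, IsClosed (a i).1 := fun i => (a i).2 ▸ isClosed_closure
    obtain ⟨v, hv1, hv2, hv3⟩ := exists_iUnion_eq_closure_subset
      (u := fun i => ((a i).1)ᶜ) (fun i => (hcl i).isOpen_compl) (fun x => Set.toFinite _)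
      (by rw [← Set.compl_iInter, hne, Set.compl_empty])
    refine ⟨fun i => ⟨closure (v i), ?_⟩, ?_, ?_⟩
    · apply le_antisymm
      · exact closure_minimal interior_subset isClosed_closure
      · exact closure_mono (interior_maximal subset_closure (hv2 i))
    · apply Set.eq_univ_of_subset (Set.iUnion_mono (fun i => subset_closure)) hv1
    · rintro i ⟨x, hx1, hx2⟩
      exact hv3 i hx1 hx2
  · rintro ⟨x, hx⟩ ⟨b, hb1, hb2⟩
    have : x ∈ ⋃ i, (b i).1 := by rw [hb1]; trivial
    obtain ⟨i, hi⟩ := Set.mem_iUnion.1 this
    exact hb2 i ⟨x, hi, Set.mem_iInter.1 hx i⟩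

end Pool.Agent.Results.MP_2fbd40_lc.NormalDefinable
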