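import Pool.Agent.Lib_MP_2fbd40_lc.NotFO

/-!
# n-ary contact is not first-order definable in contact algebras (n ≥ 3)

For `n ≥ 3` no first-order formula of the language of contact algebras defines the `n`-ary contact
relation `a₁ ∩ ⋯ ∩ aₙ ≠ ∅` on regular closed sets, not even uniformly over the very restricted
class of nonempty compact semiregular T0 spaces in which every clan of the contact algebra of
regular closed sets is the clan of a point.  (On that class `a₁ ∩ ⋯ ∩ aₙ ≠ ∅` holds iff some clan
contains `a₁, …, aₙ`, which is the second-order definition of `n`-ary contact.)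
-/

open Pool.Agent.Lib_MP_2fbd40_lc

namespace Pool.Agent.Results.MP_2fbd40_lc.NotFirstOrder

/-- **Main theorem.** For `n ≥ 3` there is no first-order formula `φ(x₁, …, xₙ)` of the language of
contact algebras which defines the `n`-ary contact relation in the standard contact algebras
`RC(X)`, even if `X` ranges only over the nonempty compact semiregular T0 spaces in which every
clan of `RC(X)` is of the form `{a | x ∈ a}` for a point `x`. -/
theorem result (n : ℕ) (hn : 3 ≤ n) :
    ¬ ∃ φ : caLang.Formula (Fin n),
      ∀ (X : Type) [TopologicalSpace X], Nonempty X → CompactSpace X → T0Space X →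
        Semiregular X →
        (∀ Γ : Set (RC X), IsClan Γ → ∃ x : X, Γ = {a | x ∈ a.1}) →
        ∀ a : Fin n → RC X, (φ.Realize a ↔ (⋂ i, (a i).1).Nonempty) :=
  main n hn

end Pool.Agent.Results.MP_2fbd40_lc.NotFirstOrder
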